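import Pool.Agent.Helper77.DS.Col

/-! DS stubs: the core (replaced by proved pieces when they land) -/

namespace Pool.Agent.Helper77.DS

noncomputable section

/-! ## DS-1 -/

section

variable {R E Y : Type} [Fintype R] [DecidableEq R] [Fintype E] [DecidableEq E] [AddCommGroup Y]
  [Module ℂ Y]

open Classical in
/-- DS-1a -/
theorem weight_mem (N : Submodule ℂ ((R → E) → Y)) (hN : ∀ B : E → E → ℂ, ∀ F ∈ N, cact B F ∈ N)
    (F : (R → E) → Y) (hF : F ∈ N) (μ : E → ℕ) :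
    (fun u => if cnt u = μ then F u else 0) ∈ N := by
  sorry

/-- DS-1b -/
theorem deriv_mem (N : Submodule ℂ ((R → E) → Y)) (hN : ∀ B : E → E → ℂ, ∀ F ∈ N, cact B F ∈ N)
    (F : (R → E) → Y) (hF : F ∈ N) (a b : E) (hab : a ≠ b) :
    (fun u => ∑ r ∈ Finset.univ.filter (fun r => u r = a), F (Function.update u r b)) ∈ N := by
  sorry

/-- DS-1c -/
theorem perm_mem (N : Submodule ℂ ((R → E) → Y)) (hN : ∀ B : E → E → ℂ, ∀ F ∈ N, cact B F ∈ N)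
    (F : (R → E) → Y) (hF : F ∈ N) (π : Equiv.Perm E) : (fun u => F (fun r => π (u r))) ∈ N := by
  sorry

end

/-! ## DS-2 -/

/-- DS-2 -/
theorem pairs_vanish {R E Y : Type} [Fintype R] [DecidableEq R] [DecidableEq E] [AddCommGroup Y]
    [Module ℂ Y] (M : ℕ) (F : (R → E) → Y) (U : Finset R) (hF : VanC M U F)
    (a b : Fin M → E) (r : Fin M → R) (u : R → E) (hu : ∀ s, u (r s) = b s)
    (hr : ∀ s, r s ∉ U) (hU : ∀ s, ∀ x ∈ U, u x ≠ a s)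
    (hab : Function.Injective (Sum.elim a b))
    (H : ∀ s, ∀ u' : R → E, (∀ x ∈ U, u' x ≠ a s) → u' (r s) = b s →
      ∑ ρ ∈ Finset.univ.filter (fun ρ => u' ρ = a s), F (fun x => u' (Equiv.swap ρ (r s) x)) =
        - F u') : F u = 0 := by
  sorry

/-! ## DS-3 -/

/-- DS-3a -/
theorem inj_vanish {Z : Type} [Fintype Z] [DecidableEq Z] (M : ℕ)
    (hZ : 2 ^ (M + 1) * M ^ 2 < Fintype.card Z) (G : (Fin M → Z) → ℂ)
    (h0 : ∀ κ : Fin M → Z, ¬ Function.Injective κ → G κ = 0)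
    (h1 : ∀ (κ : Fin M → Z) (s : Fin M), ∑ x, G (Function.update κ s x) = 0)
    (h2 : ∀ κ y : Fin M → Z, Function.Injective (Sum.elim κ y) →
      ∑ S : Finset (Fin M), (-1) ^ S.card * G (S.piecewise y κ) = 0) (κ : Fin M → Z) :
    G κ = 0 := by
  sorry

/-- DS-3b -/
theorem hook_vanish {R E : Type} [Fintype R] [DecidableEq R] [DecidableEq E] (M : ℕ)
    (F : (R → E) → ℂ) (hF : VanC M ∅ F) (v : E) (a : Fin M → E) (ha : Function.Injective a)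
    (hav : ∀ s, a s ≠ v)
    (H : ∀ (s : Fin M) (u : R → E),
      ∑ r ∈ Finset.univ.filter (fun r => u r = v), F (Function.update u r (a s)) = 0)
    (u : R → E) (hu : ∀ s, cnt u (a s) = 1) (hz : 2 ^ (M + 1) * M ^ 2 < cnt u v) : F u = 0 := by
  sorry

/-! ## DS-4 -/

/-- DS-4 -/
theorem column {R E Z : Type} [Fintype R] [DecidableEq R] [Fintype E] [DecidableEq E] (D : ℕ)
    (N : Submodule ℂ ((R → E) → Z → ℂ)) (hN : ∀ B : E → E → ℂ, ∀ F ∈ N, cact B F ∈ N)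
    (hE : Fintype.card R + 1 ≤ Fintype.card E)
    (hR : (K0 D ≤ Fintype.card R ∧ ∀ F ∈ N, VanC (D + 1) ∅ F) ∨ Fintype.card R = D)
    (x : Fin (D + 1) → E) (hx : Function.Injective x) (h0 : N ≠ ⊥) :
    ∃ F ∈ N, F ≠ 0 ∧ ∀ u, F u ≠ 0 → cnt u (x 0) = Fintype.card R - D ∧
      ∀ c : Fin (D + 1), c ≠ 0 → cnt u (x c) = 1 := by
  sorry

/-! ## DS-5 -/

/-- DS-5 -/
theorem special_exists {R I : Type} [Fintype R] [DecidableEq R] [Fintype I] [DecidableEq I]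
    (D : ℕ) (N : ∀ m : ℕ, Submodule ℂ ((R → I → Fin m) → ℂ))
    (hN : ∀ (m m' : ℕ) (A : I → Fin m' → Fin m → ℂ), ∀ f ∈ N m, tact A f ∈ N m')
    (hR : (K0 D ≤ Fintype.card R ∧ ∀ m, ∀ f ∈ N m, Van (D + 1) ∅ f) ∨ Fintype.card R = D)
    (m : ℕ) (h0 : N m ≠ ⊥) : ∃ f ∈ N (D + 1), f ≠ 0 ∧ ∀ t, f t ≠ 0 → Spec D t := by
  sorry

/-! ## DS-6 -/

/-- DS-6 -/
theorem spec_vanish {R I : Type} [Fintype R] [DecidableEq R] [Fintype I] [DecidableEq I]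
    (D k : ℕ) (hR : D + 2 * k ≤ Fintype.card R) (g : (R → I → Fin (D + 1)) → ℂ)
    (hg : Van k ∅ g)
    (h0 : ∀ t, Spec D t → (Finset.univ.filter fun r => ∃ i, t r i ≠ 0).card ≤ D + 2 * k →
      g t = 0) (t : R → I → Fin (D + 1)) (ht : Spec D t) : g t = 0 := by
  sorry

/-! ## DS-7 -/

/-- DS-7 -/
theorem words_wqo {S : Type} [Finite S] (n q : ℕ → ℕ) (w : ∀ k, Fin (n k + 1) → S) :
    ∃ a b, a < b ∧ q a ≤ q b ∧ ∃ s : Fin (n b + 1) → Fin (n a + 1), Function.Surjective s ∧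
      (∀ x y : Fin (n a + 1), x < y → ∃ i, s i = x ∧ ∀ j, s j = y → i < j) ∧
      ∀ i, w b i = w a (s i) := by
  sorry

/-! ## DS-8 -/

/-- DS-8 -/
theorem words_acc {S : Type} [Fintype S]
    (L : ℕ → ∀ n : ℕ, ℕ → Submodule ℂ ((Fin (n + 1) → S) → ℂ))
    (hk : ∀ k n q, L k n q ≤ L (k + 1) n q) (hq : ∀ k n q, L k n q ≤ L k n (q + 1))
    (hs : ∀ (k n n' q : ℕ) (s : Fin (n' + 1) → Fin (n + 1)), Function.Surjective s →
      ∀ c ∈ L k n q, wmap s c ∈ L k n' q) :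
    ∃ N, ∀ k ≥ N, ∀ n q, L k n q = L N n q := by
  sorry

/-! ## DS-9 -/

/-- DS-9 -/
theorem CMod.acc {p M : ℕ} (c : ℕ → CMod p M)
    (hc : ∀ k n m q, (c k).sub n m q ≤ (c (k + 1)).sub n m q) :
    ∃ N, ∀ k ≥ N, ∀ n m q, (c k).sub n m q = (c N).sub n m q := by
  sorry

end

end Pool.Agent.Helper77.DS
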