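import Pool.Agent.Helper77.DS.Kos

/-! DS stubs: polynomials (replaced by proved pieces when they land) -/

namespace Pool.Agent.Helper77.DS

open MvPolynomial

noncomputable section

section

variable {p q : ℕ} {I I' E E' : Type} [Fintype I] [DecidableEq I] [Fintype E]

/-! ## DS-10: functions on tables and polynomials -/

/-- DS-10a -/
theorem pol_tact [Fintype E'] (A : I → E' → E → ℂ) (f : (Fin (p + q) → I → E) → ℂ) :
    pol (tact A f) = pact A (pol f) := by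
  sorry

/-- DS-10a -/
theorem pol_colmap [Fintype I'] [DecidableEq I'] (s : I' → I) (hs : Function.Surjective s)
    (f : (Fin (p + q) → I → E) → ℂ) : pol (colmap s f) = pcol s (pol f) := by
  sorry

/-- DS-10a -/
theorem pol_addRow (w : I → E) (f : (Fin (p + q) → I → E) → ℂ) :
    pol (p := p) (q := q + 1) (addRow w f) = fun s => X w * pol f s := by
  sorry

/-- DS-10b -/
theorem van_of_base (M : ℕ) (g : (Fin (p + q) → I → E) → ℂ)
    (hg : ∀ f : (Fin (p + q) → I → E) → ℂ, (∀ s, pol f s ∈ segI I E ^ M) →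
      ∑ t, f t * g t = 0) : Van (M + p) ∅ g := by
  sorry

/-- DS-10c -/
theorem pol_surj {Ω : Type} [Fintype Ω] (c : (Fin p → Ω) → MvPolynomial Ω ℂ)
    (hc : ∀ s, (c s).IsHomogeneous q) : ∃ f : (Fin (p + q) → Ω) → ℂ, pol f = c := by
  sorry

/-- DS-10c -/
theorem sym_of_pol {Ω : Type} [Fintype Ω] (g : (Fin (p + q) → Ω) → ℂ)
    (hg : ∀ f : (Fin (p + q) → Ω) → ℂ, pol f = 0 → ∑ t, f t * g t = 0)
    (σ : Equiv.Perm (Fin (p + q)))
    (hσ : ∀ r : Fin p, σ (Fin.castAdd q r) = Fin.castAdd q r) (t : Fin (p + q) → Ω) :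
    g (fun r => t (σ r)) = g t := by
  sorry

end

/-! ## DS-11: Koszul cycles -/

/-- DS-11a -/
theorem kos_exact_of_cyc {Ω : Type} [Finite Ω] (J : Ideal (MvPolynomial Ω ℂ)) (p q : ℕ)
    (h : ∀ c ∈ Cyc J p, (∀ s, (c s).IsHomogeneous q) →
      ∃ z : Ω → (Fin (p + 1) → Ω) → MvPolynomial Ω ℂ, (∀ α, z α ∈ Cyc J p) ∧
        ∀ s, c s - ∑ᶠ α, X α * z α s ∈ J) : KosExact J p q := by
  sorry

/-- DS-11b -/
theorem cyc_lin (I : DI.DeltaIdeal) (p n m m' : ℕ) (A : Fin (n + 1) → Fin m' → Fin m → ℂ)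
    (c : (Fin (p + 1) → Fin (n + 1) → Fin m) → MvPolynomial (Fin (n + 1) → Fin m) ℂ)
    (hc : c ∈ Cyc (I.ideal (Fin (n + 1)) (fun _ => Fin m)) p) :
    pact A c ∈ Cyc (I.ideal (Fin (n + 1)) (fun _ => Fin m')) p := by
  sorry

/-- DS-11b -/
theorem cyc_col (I : DI.DeltaIdeal) (p n n' m : ℕ) (s : Fin (n' + 1) → Fin (n + 1))
    (hs : Function.Surjective s)
    (c : (Fin (p + 1) → Fin (n + 1) → Fin m) → MvPolynomial (Fin (n + 1) → Fin m) ℂ)
    (hc : c ∈ Cyc (I.ideal (Fin (n + 1)) (fun _ => Fin m)) p) :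
    pcol s c ∈ Cyc (I.ideal (Fin (n' + 1)) (fun _ => Fin m)) p := by
  sorry

/-! ## DS-12: Delta-ideals on the families `Fin (n + 1)`, `Fin m` -/

/-- DS-12a -/
theorem merge_fin (I : DI.DeltaIdeal) (n n' m : ℕ) (s : Fin (n' + 1) → Fin (n + 1))
    (hs : Function.Surjective s) (f : MvPolynomial (Fin (n + 1) → Fin m) ℂ)
    (hf : f ∈ I.ideal (Fin (n + 1)) (fun _ => Fin m)) :
    rename (fun α j => α (s j)) f ∈ I.ideal (Fin (n' + 1)) (fun _ => Fin m) := by
  sorry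

/-- The partial inverse of `rename ε`: variables outside the image are mapped to zero. -/
def back {Ω Ω' : Type} (ε : Ω → Ω') : MvPolynomial Ω' ℂ →ₐ[ℂ] MvPolynomial Ω ℂ :=
  open Classical in
  aeval fun y => if h : ∃ x, ε x = y then X h.choose else 0

/-- DS-12b -/
theorem transport (ι : Type) [Finite ι] [Nonempty ι] (V : ι → Type) [∀ i, Finite (V i)] :
    ∃ (n m : ℕ) (ε : (∀ i, V i) → (Fin (n + 1) → Fin m)), Function.Injective ε ∧
      ∀ I : DI.DeltaIdeal,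
        (∀ f ∈ I.ideal ι V, rename ε f ∈ I.ideal (Fin (n + 1)) (fun _ => Fin m)) ∧
        ∀ f ∈ I.ideal (Fin (n + 1)) (fun _ => Fin m), back ε f ∈ I.ideal ι V := by
  sorry

/-- DS-12c -/
theorem kos_transport {Ω Ω' : Type} [Finite Ω] [Finite Ω'] (ε : Ω → Ω')
    (hε : Function.Injective ε) (J : Ideal (MvPolynomial Ω ℂ)) (J' : Ideal (MvPolynomial Ω' ℂ))
    (h1 : ∀ f ∈ J, rename ε f ∈ J') (h2 : ∀ f ∈ J', back ε f ∈ J) (p q : ℕ)
    (h : KosExact J' p q) : KosExact J p q := by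
  sorry

/-! ## DS-13: the bipartition argument -/

/-- DS-13 -/
theorem flat_pow {I E : Type} [Fintype I] [DecidableEq I] [Finite E] (m : ℕ)
    (J : Ideal (MvPolynomial (I → E) ℂ))
    (h : ∀ (C : Finset I) (u v : Fin m → I → E),
      ∏ s, (X (u s) * X (v s) -
        X (C.piecewise (v s) (u s)) * X (C.piecewise (u s) (v s))) ∈ J) :
    segI I E ^ (2 * m) ≤ J := by
  sorry

/-! ## DS-14: finite level and support in the Segre variety -/

/-- DS-14 -/
theorem flat_of_level (I : DI.DeltaIdeal) (d : ℕ) (hl : HasLevel I d) (hs : SegreSupport I) :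
    ∃ m : ℕ, ∀ (n e : ℕ) (C : Finset (Fin (n + 1))) (u v : Fin m → Fin (n + 1) → Fin e),
      ∏ s, (X (u s) * X (v s) -
        X (C.piecewise (v s) (u s)) * X (C.piecewise (u s) (v s))) ∈
          I.ideal (Fin (n + 1)) (fun _ => Fin e) := by
  sorry

/-! ## DS-15: the powers of the Segre ideal are finitely generated -/

/-- DS-15 -/
theorem base_fin (M : ℕ) : ∃ S : List DI.Elt,
    (∀ I : DI.DeltaIdeal,
      (∀ n m : ℕ, segI (Fin (n + 1)) (Fin m) ^ M ≤ I.ideal (Fin (n + 1)) (fun _ => Fin m)) →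
        ∀ x ∈ S, I.Mem x) ∧
    ∀ J : DI.DeltaIdeal, (∀ x ∈ S, J.Mem x) →
      ∀ n m : ℕ, segI (Fin (n + 1)) (Fin m) ^ M ≤ J.ideal (Fin (n + 1)) (fun _ => Fin m) := by
  sorry

end

end Pool.Agent.Helper77.DS
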